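import Pool.Agent.Helper78.HgK

/-!
# ZF refutes that every second-order spectrum is a spectrum of the logic with the Härtig quantifier

Outline. Let `c` be a code of a sentence of the logic with the Härtig quantifier and let `A` be the
`c`-th iterated power set of the set of natural numbers. There is an injection of `A × A` to `A`
which is not onto, so finite lists of elements of `A` are coded by elements of `A`, and so are the natural
numbers. Hence a structure with domain `A`, and a satisfaction relation for it, can be given by a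
binary relation on `A`, and whether `A` is the domain of a model of the sentence with code `n` can be
expressed by a second-order formula over `A`, uniformly in `n`. The number `c` can be recovered from the
cardinality of `A` by a second-order formula: it is the number of iterated power sets which are needed to
exhaust `A`. So there is a second-order sentence which says about a domain that it is the `n`-th
iterated power set of the natural numbers for some `n`, and is not the domain of a model of the sentence with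
code `n`.
-/

set_option autoImplicit false

namespace Pool.Agent.Results.MP_d648bd_lc.ZFRefutes

open Pool.Agent.H40.Bspt Pool.Agent.H40.Jz Pool.Agent.H40.Zt Pool.Agent.Helper78.Hg

variable {M : Type}

/-- In the model `(M, E)` there is a bijection between the sets `A` and `B`. -/
def SameCard (E : M → M → Prop) (A B : M) : Prop := ∃ F, Bij E F A B

/-- In the model `(M, E)`, the cardinality of the set `A` is in the spectrum of the second-order sentence
`φ`. -/
def InSpecSO (E : M → M → Prop) (φ : SO) (A : M) : Prop := ∃ B, SameCard E A B ∧ φ.Models E B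

/-- In the model `(M, E)`, the cardinality of the set `A` is in the spectrum of the sentence with code
`c` of the logic with the Härtig quantifier. -/
def InSpecLI (E : M → M → Prop) (c A : M) : Prop := ∃ B, SameCard E A B ∧ LIModels E B c

variable {E : M → M → Prop}

theorem key (h : IsZF E) {o : M} (ho : Emp E o) {lev : M → M} (hl : Lev E o lev) {c : M} (hc : IsNat E c)
    {B : M} (α : IE E B (lev c)) : theta.Models E B → ¬ LIModels E B c := by
  intro u
  obtain ⟨N, L, S, C, Lv, Em, z, i, e, nB, lB, p, f, l, g⟩ := (sTheta h).1 (u (fun _ => o) fun _ => o)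
  obtain ⟨N', S', z', hN, hz, hS, p'⟩ := natFrame h ho
  obtain ⟨L', C', e', hL, he, hC, f'⟩ := listFrame h ho B
  obtain ⟨β, -⟩ := exRefl h B
  obtain ⟨ι, i1, i2, i3⟩ := frame_iso h β p' f' p f
  have e1 : (ι.e.symm i).1 = c := uqLC h ho hl nB l hN hz hS ι i1 i2 (ι.e.apply_symm_apply i) hc α
  rw [← e1, li_iff h ho hN hz hS hL he hC, i3, ι.e.apply_symm_apply]
  exact g

theorem key' (h : IsZF E) {o : M} (ho : Emp E o) {lev : M → M} (hl : Lev E o lev) {c : M} (hc : IsNat E c)
    (u : ¬ LIModels E (lev c) c) : theta.Models E (lev c) := by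
  intro v V
  obtain ⟨N', S', z', hN, hz, hS, p'⟩ := natFrame h ho
  obtain ⟨L', C', e', hL, he, hC, f'⟩ := listFrame h ho (lev c)
  obtain ⟨d, e, hd⟩ := exPi h ho hl hc
  obtain ⟨L, C, he', lA, -, f⟩ := codeLists h hd
  obtain ⟨Lv, Em, l⟩ := exLC h ho hl (z := z') (i := ⟨c, (hN c).2 hc⟩) hN hz hS rfl
  obtain ⟨β, -⟩ := exRefl h (lev c)
  obtain ⟨ι, i1, i2, i3⟩ := frame_iso h β p' f' p' f
  refine (sTheta h).2 ⟨N', L, S', C, Lv, Em, z', ⟨c, (hN c).2 hc⟩, ⟨e, he'⟩, fun x hx =>
    lev_nat h ho hl hc ((hN x).1 hx), lA, p', f, l, fun w => u ?_⟩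
  have e1 : (ι.e.symm ⟨c, (hN c).2 hc⟩).1 = c := uqLC h ho hl (fun x hx =>
    lev_nat h ho hl hc ((hN x).1 hx)) l hN hz hS ι i1 i2 (ι.e.apply_symm_apply _) hc β
  have := (li_iff h ho hN hz hS hL he hC (ι.e.symm ⟨c, (hN c).2 hc⟩)).2
    ((i3 _).2 (by rwa [ι.e.apply_symm_apply]))
  rwa [e1] at this

theorem li_inv (h : IsZF E) {A B c : M} (hc : IsNat E c) (α : IE E A B) (u : LIModels E A c) :
    LIModels E B c := by
  obtain ⟨o, ho⟩ := h.emp
  obtain ⟨N, S, z, hN, hz, hS, -⟩ := natFrame h ho
  obtain ⟨L, C, e, hL, he, hC, f⟩ := listFrame h ho A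
  obtain ⟨L', C', e', hL', he', hC', f'⟩ := listFrame h ho B
  obtain ⟨ι, hι⟩ := exRefl h N
  obtain ⟨κ, k1, k2⟩ := f.iso h f' α
  have := (li_iff h ho hN hz hS hL he hC ⟨c, (hN c).2 hc⟩).1 u
  have w := (gt_tr h α ι κ (z := z) (z' := z) (e := e) (e' := e') (by rw [hι]; rfl) k1
    (fun m n => by rw [hι]; rfl) k2 ⟨c, (hN c).2 hc⟩).1 this
  have e2 : ι.e ⟨c, (hN c).2 hc⟩ = ⟨c, (hN c).2 hc⟩ := by rw [hι]; rfl
  rw [e2] at w
  exact (li_iff h ho hN hz hS hL' he' hC' ⟨c, (hN c).2 hc⟩).2 w

/-- There is a second-order sentence whose spectrum is, in every model of ZF, different from the spectra of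
all sentences of the logic with the Härtig quantifier. -/
theorem result : ∃ φ : SO, φ.IsSentence ∧ ∀ (M : Type) (E : M → M → Prop), IsZF E →
    ∀ c, IsNat E c → ¬ ∀ A, (∃ a, E a A) → (InSpecSO E φ A ↔ InSpecLI E c A) := by
  refine ⟨theta, theta_sentence, fun M E h c hc u => ?_⟩
  obtain ⟨o, ho⟩ := h.emp
  obtain ⟨lev, hl⟩ := exLev h ho
  have w := u (lev c) ⟨o, lev_nat h ho hl hc (nat_o h ho)⟩
  by_cases x : LIModels E (lev c) c
  · obtain ⟨β, -⟩ := exRefl h (lev c)
    obtain ⟨B, ⟨F, y⟩, b⟩ := w.2 ⟨lev c, ⟨_, β.bij⟩, x⟩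
    obtain ⟨γ, -⟩ := bij_ie y
    obtain ⟨γ', -⟩ := γ.symm' h
    exact key h ho hl hc γ' b (li_inv h hc γ x)
  · obtain ⟨β, -⟩ := exRefl h (lev c)
    obtain ⟨B, ⟨F, y⟩, b⟩ := w.1 ⟨lev c, ⟨_, β.bij⟩, key' h ho hl hc x⟩
    obtain ⟨γ, -⟩ := bij_ie y
    obtain ⟨γ', -⟩ := γ.symm' h
    exact x (li_inv h hc γ' b)

end Pool.Agent.Results.MP_d648bd_lc.ZFRefutes
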